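import Pool.Agent.W528.HI.Stm
import Pool.Agent.W528.HF.Main

/-!
# Kummer coverings in both directions: the final theorem
-/

set_option autoImplicit false

namespace Pool.Agent.W528.HI

open Finset Polynomial Pool.Agent.W528.HA Pool.Agent.W528.HB Pool.Agent.W528.HD
  Pool.Agent.W528.HF

/-- The traces of the powers of `Φ` are the sums `triSum`. -/
def TriTrace (κ : Type) [Field κ] [Fintype κ] {E : Type} [Field E] (n e r : ℕ) {m : ℕ}
    (f : Fin m → κ[X]) (a : Fin m → ℕ) (z : κ) (μ : E) (j s₁ s₂ : ℕ) {W : Type} [AddCommGroup W]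
    [Module E W] (Φ : Module.End E W) : Prop :=
  ∀ (L : Type) [Field L] [Fintype L] [Algebra κ L],
    LinearMap.trace E W (Φ ^ Module.finrank κ L)
      = triSum L E n e r (fun i => (f i).map (algebraMap κ L)) a (algebraMap κ L z) μ j s₁ s₂

lemma triSum_eq {L : Type} [Field L] [Fintype L] {R : Type} [CommRing R] (n e r : ℕ) {m : ℕ}
    (f : Fin m → L[X]) (a : Fin m → ℕ) (z : L) (μ : R) (j s₁ s₂ : ℕ) :
    triSum L R n e r f a z μ j s₁ s₂
      = gSum L R (n * e * r) (Sum.elim (fun _ : Fin m => (1 : L)) (fun _ : Unit => (1 : L)))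
        (Sum.elim (fun i => -(f i)) (fun _ => 0))
        (Sum.elim (fun i => e * r * (j * a i % n)) (fun _ => n * r * s₁)) (n * e * s₂) z μ := by
  unfold triSum gSum
  refine sum_congr rfl fun x _ => sum_congr rfl fun t _ => ?_
  rw [Fintype.prod_sum_type]
  simp only [Sum.elim_inl, Sum.elim_inr, eval_neg, eval_zero, one_mul, sub_eq_add_neg,
    add_zero, Finset.univ_unique, Finset.prod_const, Finset.card_singleton, pow_one]

theorem fin_tri (hGN : GN) (hONE : ONE) (hGE : GE) (hAT : AT) (hPT : PT)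
    {n e r c D P Q R : ℕ} (hn : 2 ≤ n) (he : 0 < e) (hr : 0 < r) (hen : e.Coprime n)
    (hrn : r.Coprime n) (her : e.Coprime r) (hP1 : 1 ≤ P) (hQ1 : 1 ≤ Q) (hR1 : 1 ≤ R)
    (hP : ∀ l : ℕ, l.Prime → l ∣ n → P ≤ l) (hQ : ∀ l : ℕ, l.Prime → l ∣ e → Q ≤ l)
    (hR : ∀ l : ℕ, l.Prime → l ∣ r → R ≤ l)
    [Fact c.Prime] (hc : n * e * r ∣ c - 1)
    (κ : Type) [Field κ] [Fintype κ] [CharP κ c]
    {z : κ} (hz : IsPrimitiveRoot z (n * e * r)) {E : Type} [Field E] [CharZero E] [IsAlgClosed E]
    {μ : E} (hμ : IsPrimitiveRoot μ (n * e * r)) {m : ℕ} (hD : 1 ≤ D) (f : Fin m → κ[X])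
    (hf : ∀ i, (f i).natDegree ≤ D)
    (a : Fin m → ℕ) (ha : ∀ i, 0 < a i)
    (ha2 : D * (Q * R * ∑ i, a i + P * R) + P * Q < P * Q * R)
    {G : Type} [Group G] {V : Type} [AddCommGroup V] [Module E V] [FiniteDimensional E V]
    (ρ : Representation E G V) (W : Fin (n - 1) × Fin e × Fin r → Submodule E V)
    (hW : DirectSum.IsInternal W) (hstab : ∀ χ g, ∀ v ∈ W χ, ρ g v ∈ W χ)
    (φ : G) (hφ : ∀ χ, TriTrace κ n e r f a z μ (χ.1 + 1) χ.2.1 χ.2.2
      ((ρ φ).restrict (hstab χ φ))) :
    (∀ (L : Type) [Field L] [Fintype L] [Algebra κ L],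
      LinearMap.trace E V ((ρ φ) ^ Module.finrank κ L)
        = (triPoints L n e r (fun i => (f i).map (algebraMap κ L)) a : E)
          - (Fintype.card L : E) ^ 2) ∧
    ∀ (ε : G →* E), ε φ = Fintype.card κ → ∀ (H : Subgroup G), H.FiniteIndex → ∀ v : V,
      (∀ g ∈ H, ρ g v = ε g • v) → v = 0 := by
  classical
  have hcp : c.Prime := Fact.out
  obtain ⟨F, hF0, hF⟩ := FiniteField.card κ c
  have hF0' : 0 < (F : ℕ) := F.2
  have hn0 : 0 < n := by omega
  have hN : 2 ≤ n * e * r := by
    rw [mul_assoc]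
    exact le_trans hn (Nat.le_mul_of_pos_right n (Nat.mul_pos he hr))
  have hcop : ∀ i, (a i).Coprime n := by
    intro i
    refine coprime_of_primes (ha i) fun l hl hln => ?_
    have h1 := hP l hl hln
    have h2 : a i ≤ ∑ i, a i := single_le_sum (f := a) (fun _ _ => Nat.zero_le _) (mem_univ i)
    have h3 : Q * R * ∑ i, a i < Q * R * P := by
      calc Q * R * ∑ i, a i ≤ Q * R * ∑ i, a i + P * R := Nat.le_add_right _ _
        _ ≤ D * (Q * R * ∑ i, a i + P * R) := Nat.le_mul_of_pos_left _ (by omega)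
        _ ≤ D * (Q * R * ∑ i, a i + P * R) + P * Q := Nat.le_add_right _ _
        _ < P * Q * R := ha2
        _ = Q * R * P := by ring
    have h4 : ∑ i, a i < P := Nat.lt_of_mul_lt_mul_left h3
    omega
  refine ⟨?_, ?_⟩
  · intro L _ _ _
    have hzL : IsPrimitiveRoot (algebraMap κ L z) (n * e * r) :=
      hz.map_of_injective (algebraMap κ L).injective
    rw [← hPT L n e r (algebraMap κ L z) hn0 he hr hzL E μ hμ m _ a fun i => ⟨ha i, hcop i⟩]
    have hmaps : ∀ χ, Set.MapsTo (ρ φ ^ Module.finrank κ L) (W χ) (W χ) := by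
      intro χ
      have : ∀ k : ℕ, Set.MapsTo (ρ φ ^ k) (W χ) (W χ) := by
        intro k
        induction k with
        | zero => intro v hv; simpa using hv
        | succ k ih =>
          intro v hv
          rw [pow_succ, Module.End.mul_apply]
          exact ih (hstab χ φ v hv)
      exact this _
    rw [LinearMap.trace_eq_sum_trace_restrict hW hmaps]
    rw [Fintype.sum_prod_type]
    have h1 : ∀ χ : Fin (n - 1) × Fin e × Fin r,
        LinearMap.trace E (W χ) ((ρ φ ^ Module.finrank κ L).restrict (hmaps χ))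
          = triSum L E n e r (fun i => (f i).map (algebraMap κ L)) a (algebraMap κ L z) μ
            (χ.1 + 1) χ.2.1 χ.2.2 := by
      intro χ
      rw [← hφ χ L]
      congr 1
      have : ∀ (k : ℕ) (hk : Set.MapsTo (ρ φ ^ k) (W χ) (W χ)),
          (ρ φ ^ k).restrict hk = ((ρ φ).restrict (hstab χ φ)) ^ k := by
        intro k hk
        ext v
        have h2 : ∀ (k : ℕ) (v : W χ),
            ((((ρ φ).restrict (hstab χ φ)) ^ k) v : V) = (ρ φ ^ k) (v : V) := by
          intro k
          induction k with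
          | zero => intro v; rfl
          | succ k ih =>
            intro v
            rw [pow_succ, Module.End.mul_apply, ih, pow_succ, Module.End.mul_apply]
            rfl
        rw [h2]
        rfl
      exact this _ _
    rw [sum_congr rfl fun i _ => (Fintype.sum_prod_type _).trans
      (sum_congr rfl fun s₁ _ => sum_congr rfl fun s₂ _ => h1 (i, s₁, s₂))]
    simp only
    have h3 : ∀ g : ℕ → E, ∑ j ∈ Ico 1 n, g j = ∑ i : Fin (n - 1), g (i + 1) := by
      intro g
      rw [Finset.sum_Ico_eq_sum_range, ← Fin.sum_univ_eq_sum_range (fun i => g (1 + i))]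
      exact sum_congr rfl fun i _ => by rw [add_comm]
    rw [h3]
    refine sum_congr rfl fun i _ => ?_
    rw [← Fin.sum_univ_eq_sum_range (fun s₁ => ∑ s₂ ∈ range r, triSum L E n e r
      (fun i => (f i).map (algebraMap κ L)) a (algebraMap κ L z) μ (i + 1) s₁ s₂) e]
    refine sum_congr rfl fun s₁ _ => ?_
    exact (Fin.sum_univ_eq_sum_range (fun s₂ => triSum L E n e r
      (fun i => (f i).map (algebraMap κ L)) a (algebraMap κ L z) μ (i + 1) s₁ s₂) r)
  · intro ε hε H hH v hv
    refine decomp ρ W hW hstab φ (Fintype.card κ : E) ?_ ε hε H hH v hv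
    rintro ⟨i, s₁, s₂⟩ M hM w hw
    have hi := i.2
    obtain ⟨j', hj', hsum⟩ := hAT n e r c F D P Q R hn he hr hen hrn her hP1 hQ1 hR1 hP hQ hR hcp
      hc hF0' m a ha hD ha2 (i + 1) s₁ s₂ (by omega) (by omega) s₁.2 s₂.2
    refine g_op hGN hONE hGE hN κ hF hz hμ hD
      (Sum.elim (fun _ : Fin m => (1 : κ)) (fun _ : Unit => (1 : κ)))
      (Sum.elim (fun i => -(f i)) (fun _ => 0)) ?_
      (Sum.elim (fun k => e * r * ((i + 1) * a k % n)) (fun _ => n * r * s₁)) ?_
      (n * e * s₂) ?_ hj' ?_ ((ρ φ).restrict (hstab (i, s₁, s₂) φ)) ?_ M hM w hw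
    · rintro (k | k)
      · rw [Sum.elim_inl, natDegree_neg]
        exact hf k
      · simp
    · rintro (k | k)
      · rw [Sum.elim_inl, show n * e * r = e * r * n from by ring]
        exact Nat.mul_lt_mul_of_pos_left (Nat.mod_lt _ hn0) (Nat.mul_pos he hr)
      · rw [Sum.elim_inr, show n * e * r = n * r * e from by ring]
        exact Nat.mul_lt_mul_of_pos_left s₁.2 (Nat.mul_pos hn0 hr)
    · exact Nat.mul_lt_mul_of_pos_left s₂.2 (Nat.mul_pos hn0 he)
    · rw [Fintype.sum_sum_type]
      simp only [Sum.elim_inl, Sum.elim_inr, Finset.univ_unique, Finset.sum_const,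
        Finset.card_singleton, one_smul]
      exact hsum
    · intro L _ _ _
      rw [hφ (i, s₁, s₂) L, triSum_eq]
      congr 1
      · funext i
        rcases i with i | i
        · simp
        · simp
      · funext i
        rcases i with i | i
        · simp
        · simp

end Pool.Agent.W528.HI
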