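import Pool.Agent.W528.HD.Stm

/-!
# Kummer coverings in both directions, polynomial branch curves: statements of the parts
-/

set_option autoImplicit false

namespace Pool.Agent.W528.HI

open Finset Polynomial Pool.Agent.W528.HA Pool.Agent.W528.HB

/-- The sum over `(x, t) ∈ L²` of the value at
`∏ (x - f_i(t)) ^ (e r (j a_i mod n)) * x ^ (n r s₁) * t ^ (n e s₂)` of the character of
order `n e r` of `L` belonging to `z ↦ μ`. -/
noncomputable def triSum (L : Type) [Field L] [Fintype L] (R : Type) [CommRing R] (n e r : ℕ)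
    {m : ℕ} (f : Fin m → L[X]) (a : Fin m → ℕ) (z : L) (μ : R) (j s₁ s₂ : ℕ) : R :=
  ∑ x : L, ∑ t : L, kv (n * e * r) z μ
    (((∏ i, (x - (f i).eval t) ^ (e * r * (j * a i % n))) * x ^ (n * r * s₁)
        * t ^ (n * e * s₂)) ^ ((Fintype.card L - 1) / (n * e * r)))

/-- The number of points `(x, u, y)` over `L` of the affine surface
`y ^ n = ∏ (x ^ e - f_i(u ^ r)) ^ a_i`. -/
noncomputable def triPoints (L : Type) [Field L] (n e r : ℕ) {m : ℕ} (f : Fin m → L[X])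
    (a : Fin m → ℕ) : ℕ :=
  Set.ncard {v : L × L × L | v.2.2 ^ n = ∏ i, (v.1 ^ e - (f i).eval (v.2.1 ^ r)) ^ a i}

/-- The sum of all character sums. -/
def PT : Prop :=
  ∀ (L : Type) [Field L] [Fintype L] (n e r : ℕ) (z : L), 0 < n → 0 < e → 0 < r →
    IsPrimitiveRoot z (n * e * r) → ∀ (E : Type) [Field E] [CharZero E] (μ : E),
    IsPrimitiveRoot μ (n * e * r) → ∀ (m : ℕ) (f : Fin m → L[X]) (a : Fin m → ℕ),
    (∀ i, 0 < a i ∧ (a i).Coprime n) →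
    ∑ j ∈ Ico 1 n, ∑ s₁ ∈ range e, ∑ s₂ ∈ range r, triSum L E n e r f a z μ j s₁ s₂
      = (triPoints L n e r f a : E) - (Fintype.card L : E) ^ 2

/-- The arithmetic of the exponents. -/
def AT : Prop :=
  ∀ (n e r c F D P Q R : ℕ), 2 ≤ n → 0 < e → 0 < r → e.Coprime n → r.Coprime n → e.Coprime r →
    1 ≤ P → 1 ≤ Q → 1 ≤ R →
    (∀ l : ℕ, l.Prime → l ∣ n → P ≤ l) → (∀ l : ℕ, l.Prime → l ∣ e → Q ≤ l) →
    (∀ l : ℕ, l.Prime → l ∣ r → R ≤ l) →
    c.Prime → n * e * r ∣ c - 1 → 0 < F → ∀ (m : ℕ) (a : Fin m → ℕ), (∀ i, 0 < a i) → 1 ≤ D →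
    D * (Q * R * ∑ i, a i + P * R) + P * Q < P * Q * R →
    ∀ j s₁ s₂ : ℕ, 0 < j → j < n → s₁ < e → s₂ < r →
      ∃ j' : ℕ, j'.Coprime (n * e * r) ∧
        D * (∑ i, ∑ b ∈ range F, (j' * (e * r * (j * a i % n)) * c ^ b) % (n * e * r)
          + ∑ b ∈ range F, (j' * (n * r * s₁) * c ^ b) % (n * e * r))
          + ∑ b ∈ range F, (j' * (n * e * s₂) * c ^ b) % (n * e * r) < F * (n * e * r)

end Pool.Agent.W528.HI
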